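import Pool.Agent.Helper60.TWM.Lin

/-!
Row MWI of the sheet TWM: minimal modules for the power `p` of small rank are invariant.
-/

set_option linter.unusedSectionVars false

open MeasureTheory Filter Topology Finset
open scoped ComplexConjugate Matrix

namespace Pool.Agent.Helper60.TWM

open Pool.Agent.Helper98.TW
open Pool.Agent.Helper40.TWM

section mat

variable {Ω : Type} [m0 : MeasurableSpace Ω] {μ : Measure Ω} {C : SA Ω} {m : ℕ}
  {A B : Ω → Matrix (Fin m) (Fin m) ℂ} {f : Ω → ℂ}

/-- matrices with measurable entries -/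
def Amm (μ : Measure Ω) (C : SA Ω) (A : Ω → Matrix (Fin m) (Fin m) ℂ) : Prop :=
  ∀ a b, AM μ C fun x => A x a b

theorem amm_one : Amm μ C (fun _ => (1 : Matrix (Fin m) (Fin m) ℂ)) := fun _ _ => am_const _

theorem amm_mul (hA : Amm μ C A) (hB : Amm μ C B) : Amm μ C (fun x => A x * B x) := by
  intro a b
  simp only [Matrix.mul_apply]
  exact am_finset_sum _ fun c _ => am_mul (hA a c) (hB c b)

theorem amm_star (hA : Amm μ C A) : Amm μ C (fun x => (A x).conjTranspose) := by
  intro a b
  exact am_conj (hA b a)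

theorem amm_smul (hf : AM μ C f) (hA : Amm μ C A) : Amm μ C (fun x => f x • A x) := by
  intro a b
  exact am_mul hf (hA a b)

/-- the products along the orbits -/
noncomputable def Un (S : Ω → Ω) (A : Ω → Matrix (Fin m) (Fin m) ℂ) :
    ℕ → Ω → Matrix (Fin m) (Fin m) ℂ
  | 0, _ => 1
  | n + 1, x => Un S A n (S x) * A x

theorem amm_Un {S S' : Ω → Ω} (hI : IA μ C S S') (hA : Amm μ C A) (n : ℕ) :
    Amm μ C (Un S A n) := by
  induction n with
  | zero => exact amm_one
  | succ n ih =>
    have h1 : Amm μ C (fun x => Un S A n (S x)) := fun a b => (hI.2 _ (ih a b)).1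
    exact amm_mul h1 hA

theorem mul_star_of {U : Matrix (Fin m) (Fin m) ℂ} (h : U ∈ Matrix.unitaryGroup (Fin m) ℂ) :
    U * U.conjTranspose = 1 := by
  have := Matrix.mem_unitaryGroup_iff.1 h
  simpa [Matrix.star_eq_conjTranspose] using this

theorem star_mul_of {U : Matrix (Fin m) (Fin m) ℂ} (h : U ∈ Matrix.unitaryGroup (Fin m) ℂ) :
    U.conjTranspose * U = 1 := by
  have := Matrix.mem_unitaryGroup_iff'.1 h
  simpa [Matrix.star_eq_conjTranspose] using this

theorem unit_of {U : Matrix (Fin m) (Fin m) ℂ} (h : U * U.conjTranspose = 1) :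
    U ∈ Matrix.unitaryGroup (Fin m) ℂ := by
  rw [Matrix.mem_unitaryGroup_iff, Matrix.star_eq_conjTranspose]
  exact h

open scoped ComplexOrder in
theorem star_mul_eq_zero {B : Matrix (Fin m) (Fin m) ℂ} (h : B.conjTranspose * B = 0) :
    B = 0 := Matrix.conjTranspose_mul_self_eq_zero.1 h

theorem unit_Un {S S' : Ω → Ω} (hS : Sys μ S S')
    (hA : ∀ᵐ x ∂μ, A x ∈ Matrix.unitaryGroup (Fin m) ℂ) (n : ℕ) :
    ∀ᵐ x ∂μ, Un S A n x ∈ Matrix.unitaryGroup (Fin m) ℂ := by
  induction n with
  | zero => exact Eventually.of_forall fun x => one_mem _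
  | succ n ih =>
    filter_upwards [ae_comp hS.mp ih, hA] with x h1 h2
    exact mul_mem h1 h2

theorem Un_smul {S S' : Ω → Ω} (hS : Sys μ S S') {U : Ω → Matrix (Fin m) (Fin m) ℂ}
    (h : ∀ᵐ x ∂μ, U x = f x • A x) (n : ℕ) :
    ∀ᵐ x ∂μ, Un S U n x = (∏ j ∈ range n, f (S^[j] x)) • Un S A n x := by
  induction n with
  | zero => exact Eventually.of_forall fun x => by simp [Un]
  | succ n ih =>
    filter_upwards [ae_comp hS.mp ih, h] with x h1 h2
    show Un S U n (S x) * U x = _ • (Un S A n (S x) * A x)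
    rw [h1, h2, prod_range_succ', Matrix.smul_mul, Matrix.mul_smul, smul_smul]
    simp only [Function.iterate_succ_apply, Function.iterate_zero, id_eq]

theorem Un_act {V : Type} [NormedAddCommGroup V] [InnerProductSpace ℂ V] {S S' : Ω → Ω}
    {θ : Ω → V →L[ℂ] V} (hS : Sys μ S S') {ev : Ω → Fin m → V}
    {U : Ω → Matrix (Fin m) (Fin m) ℂ}
    (h : ∀ᵐ x ∂μ, (fun a => θ x (ev (S x) a)) = act (U x) (ev x)) (n : ℕ) :
    ∀ᵐ x ∂μ, (fun a => tp S θ n x (ev (S^[n] x) a)) = act (Un S U n x) (ev x) := by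
  induction n with
  | zero =>
    refine Eventually.of_forall fun x => ?_
    show (fun a => (1 : V →L[ℂ] V) (ev x a)) = act 1 (ev x)
    rw [act_one]
    rfl
  | succ n ih =>
    filter_upwards [ae_comp hS.mp ih, h] with x h1 h2
    show _ = act (Un S U n (S x) * U x) (ev x)
    rw [act_mul, ← h2]
    funext a
    show θ x (tp S θ n (S x) (ev (S^[n + 1] x) a)) = _
    rw [Function.iterate_succ_apply]
    have h3 : tp S θ n (S x) (ev (S^[n] (S x)) a) = act (Un S U n (S x)) (ev (S x)) a :=
      congrFun h1 a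
    rw [h3, map_act]

end mat

theorem st_MWI (hMCL : ST_MCL) (hMEN : ST_MEN) (hMIR : ST_MIR) : ST_MWI := by
  intro Ω m0 μ _ V _ _ _ _ S S' θ C p q R₀ M m e ρ hSt hθ hp hq hpq hR hQ hZ hMi hm1 hmR hF
  have hS : Sys μ S S' := by simpa using hSt.sys 1
  have hT : Sys μ S^[p] S'^[p] := hSt.sys p
  have hE : Ergodic S^[p] μ := hSt.erg p hp.one_lt.le
  have hIA : IA μ C S S' := hQ.ia
  have hIAp : IA μ C S^[p] S'^[p] := hIA.iterate p
  have hIr : IrM μ C S^[p] ρ := hMIR Ω μ V S^[p] S'^[p] (tp S θ p) C M m e ρ hT hE hIAp hMi hF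
  let a0 : Fin m := ⟨0, hm1⟩
  -- tuples
  let ev : Ω → Fin m → V := fun x a => e a x
  let gv : Ω → Fin m → V := fun x a => θ x (ev (S x) a)
  have hcomp : ∀ᵐ x ∂μ, (fun a => tp S θ p x (ev (S^[p] x) a)) = act (ρ x) (ev x) := by
    filter_upwards [ae_all_iff.2 hF.comp] with x hx
    funext a
    exact hx a
  have hem : ∀ a, AEStronglyMeasurable (fun x => ev x a) μ := fun a =>
    Lp.aestronglyMeasurable (e a)
  have hgm : ∀ a, AEStronglyMeasurable (fun x => gv x a) μ := by
    intro a
    have h1 : AEStronglyMeasurable (fun x => ev (S x) a) μ :=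
      (hem a).comp_quasiMeasurePreserving hS.mp.quasiMeasurePreserving
    exact (isBoundedBilinearMap_apply (𝕜 := ℂ) (E := V) (F := V)).continuous.comp_aestronglyMeasurable
      (hθ.ms.prodMk h1)
  have hbd : ∀ᵐ x ∂μ, ∀ a b, ‖gram (ev x) a b‖ ≤ m := by
    filter_upwards [hF.norm] with x hx a b
    have h1 : ∀ c, ‖ev x c‖ ^ 2 ≤ m := by
      intro c
      rw [← hx]
      exact single_le_sum (f := fun c => ‖ev x c‖ ^ 2) (fun i _ => sq_nonneg _) (mem_univ c)
    rw [gram_apply]
    refine (norm_inner_le_norm _ _).trans ?_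
    nlinarith [h1 a, h1 b, sq_nonneg (‖ev x a‖ - ‖ev x b‖)]
  -- step 1: the frame is orthonormal at almost every point
  have hgram : ∀ᵐ x ∂μ, gram (ev x) = 1 := by
    have heq : ∀ᵐ x ∂μ, gram (ev (S^[p] x)) = ρ x * gram (ev x) * (ρ x).conjTranspose := by
      filter_upwards [hcomp] with x hx
      rw [← gram_act, ← hx]
      exact (gram_iso (tp_iso hθ p x) _).symm
    obtain ⟨l, hl⟩ := hMCL Ω μ S S' C p q R₀ m (fun x => gram (ev x)) ρ hT hE hQ hq hR hmR
      (fun a b => (hem b).inner (𝕜 := ℂ) (hem a)) ⟨m, hbd⟩ hF.meas hF.unit hIr heq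
    have h1 : (fun x => (inner ℂ (e a0 x) (e a0 x) : ℂ)) =ᵐ[μ] fun _ => l := by
      filter_upwards [hl] with x hx
      have := congrFun (congrFun hx a0) a0
      rw [gram_apply] at this
      simpa using this
    have h2 : μ[fun x => (inner ℂ (e a0 x) (e a0 x) : ℂ)|C] =ᵐ[μ] fun _ => l := by
      refine (condExp_congr_ae h1).trans ?_
      rw [condExp_const hIA.1]
    have h3 := hF.on a0 a0
    have h4 : l = 1 := by
      obtain ⟨x, hx1, hx2⟩ := (h2.and h3).exists
      rw [hx1] at hx2
      simpa using hx2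
    filter_upwards [hl] with x hx
    rw [hx, h4, one_smul]
  -- step 2: the projections
  have hpr : ∀ᵐ x ∂μ, pr (gv x) = pr (ev x) := by
    have h1 : AEStronglyMeasurable (fun x => pr (ev x)) μ := by
      have h2 : Continuous fun v : V => InnerProductSpace.rankOne ℂ v v := by
        have h21 : (fun v : V => InnerProductSpace.rankOne ℂ v v) =
            fun v : V => ContinuousLinearMap.smulRightL ℂ V V (innerSL ℂ v) v := by
          funext v
          ext w
          simp
        rw [h21]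
        exact ((ContinuousLinearMap.smulRightL ℂ V V).continuous.comp
          (innerSL ℂ).continuous).clm_apply continuous_id
      have h3 : ∀ a : Fin m, AEStronglyMeasurable
          (fun x => InnerProductSpace.rankOne ℂ (ev x a) (ev x a)) μ := fun a =>
        h2.comp_aestronglyMeasurable (hem a)
      have h4 := Finset.aestronglyMeasurable_fun_sum (univ : Finset (Fin m)) fun a _ => h3 a
      exact h4
    have h5 := hZ (fun x => pr (ev x)) h1 ⟨m, ?_⟩ ?_
    · filter_upwards [h5] with x hx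
      rw [← hx, pr_map]
    · filter_upwards [hF.norm] with x hx
      exact pr_norm hx
    · filter_upwards [hcomp, hF.unit] with x h6 h7
      rw [pr_map, h6, pr_act h7]
  -- step 3: the matrix `U`
  let U : Ω → Matrix (Fin m) (Fin m) ℂ := fun x => Matrix.of fun a b => inner ℂ (ev x b) (gv x a)
  have hgramg : ∀ᵐ x ∂μ, gram (gv x) = 1 := by
    filter_upwards [ae_comp hS.mp hgram] with x hx
    rw [← hx]
    exact gram_iso (hθ.iso x) _
  have hgU : ∀ᵐ x ∂μ, gv x = act (U x) (ev x) := by
    filter_upwards [hpr, hgramg] with x h1 h2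
    funext a
    rw [← pr_self h2 a, h1, pr_apply]
    rfl
  have hUu : ∀ᵐ x ∂μ, U x ∈ Matrix.unitaryGroup (Fin m) ℂ := by
    filter_upwards [hgU, hgram, hgramg] with x h1 h2 h3
    apply unit_of
    rw [h1, gram_act, h2, mul_one] at h3
    exact h3
  -- step 4: equivariance
  have hUT : ∀ᵐ x ∂μ, U (S^[p] x) * ρ x = ρ (S x) * U x := by
    filter_upwards [hgU, ae_comp hT.mp hgU, hcomp, ae_comp hS.mp hcomp, hgram]
      with x h1 h2 h3 h4 h5
    refine act_inj h5 ?_
    rw [act_mul, act_mul, ← h1, ← h3]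
    funext a
    rw [← map_act (tp S θ p x)]
    have h6 : act (U (S^[p] x)) (ev (S^[p] x)) a = gv (S^[p] x) a := by rw [← h2]
    rw [h6]
    show tp S θ p x (θ (S^[p] x) (ev (S (S^[p] x)) a)) = act (ρ (S x)) (fun b => θ x (ev (S x) b)) a
    rw [← tp_succ', ← map_act (θ x), ← h4]
    show θ x (tp S θ p (S x) (ev (S (S^[p] x)) a)) = θ x (tp S θ p (S x) (ev (S^[p] (S x)) a))
    rw [← Function.iterate_succ_apply' S p x, Function.iterate_succ_apply S p x]
  have hUT' : ∀ᵐ x ∂μ, U (S^[p] x) = ρ (S x) * U x * (ρ x).conjTranspose := by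
    filter_upwards [hUT, hF.unit] with x h1 h2
    rw [← h1, Matrix.mul_assoc, mul_star_of h2, Matrix.mul_one]
  -- step 5: the entries are measurable
  have hUm : ∀ a b, AEStronglyMeasurable (fun x => U x a b) μ := fun a b =>
    (hem b).inner (𝕜 := ℂ) (hgm a)
  have hUb : ∀ᵐ x ∂μ, ∀ a b, ‖U x a b‖ ≤ 1 := by
    filter_upwards [hUu] with x hx a b
    exact entry_norm_bound_of_unitary hx a b
  have key : Amm μ C U := by
    by_contra hcon
    obtain ⟨ψ, B, hψ, hinc, hψ0, hBm, ⟨L, hL⟩, hB0, hBT⟩ := hMEN Ω μ S S' C p q R₀ m U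
      (fun x => ρ (S x)) ρ hT hE hQ hmR hUm ⟨1, hUb⟩ (fun a b => (hIA.2 _ (hF.meas a b)).1)
      hF.meas (ae_comp hS.mp hF.unit) hF.unit hUT' hcon
    have hψT : ∀ᵐ x ∂μ, ‖ψ (S^[p] x)‖ = 1 := ae_comp hT.mp hψ.2
    have hc1 : ∀ᵐ x ∂μ, ψ (S^[p] x) * conj (ψ (S^[p] x)) = 1 := ae_comp hT.mp hψ.mul_conj
    -- `B^* B` is scalar
    obtain ⟨l, hl⟩ := hIr (fun x => (B x).conjTranspose * B x)
      (amm_mul (amm_star hBm) hBm) (by
        filter_upwards [hBT, hψ.mul_conj, hc1, ae_comp hS.mp hF.unit] with x h1 h2 h3 h4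
        rw [h1]
        have h5 : (ρ (S x)).conjTranspose * ρ (S x) = 1 := star_mul_of h4
        rw [Matrix.conjTranspose_smul, Matrix.conjTranspose_mul, Matrix.conjTranspose_mul,
          Matrix.conjTranspose_conjTranspose, Matrix.smul_mul, Matrix.mul_smul, smul_smul]
        have h6 : star (conj (ψ (S^[p] x) * conj (ψ x))) * conj (ψ (S^[p] x) * conj (ψ x)) = 1 := by
          simp only [RCLike.star_def, map_mul, Complex.conj_conj]
          linear_combination (ψ x * conj (ψ x)) * h3 + h2
        rw [h6, one_smul]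
        calc ρ x * ((B x).conjTranspose * (ρ (S x)).conjTranspose) *
              (ρ (S x) * B x * (ρ x).conjTranspose)
            = ρ x * ((B x).conjTranspose * ((ρ (S x)).conjTranspose * ρ (S x)) * B x) *
              (ρ x).conjTranspose := by simp only [Matrix.mul_assoc]
          _ = ρ x * ((B x).conjTranspose * B x) * (ρ x).conjTranspose := by
              rw [h5, Matrix.mul_one])
    have hl0 : l ≠ 0 := by
      rintro rfl
      apply hB0
      filter_upwards [hl] with x hx
      rw [zero_smul] at hx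
      exact star_mul_eq_zero hx
    have hBB : ∀ᵐ x ∂μ, B x * (B x).conjTranspose = l • (1 : Matrix (Fin m) (Fin m) ℂ) := by
      filter_upwards [hl] with x hx
      have h1 : (l⁻¹ • (B x).conjTranspose) * B x = 1 := by
        rw [Matrix.smul_mul, hx, smul_smul, inv_mul_cancel₀ hl0, one_smul]
      have h2 := mul_eq_one_comm.1 h1
      rw [Matrix.mul_smul] at h2
      rw [← h2, smul_smul, mul_inv_cancel₀ hl0, one_smul]
    -- the matrix `Y1`
    have hBm' : ∀ a b, AEStronglyMeasurable (fun x => B x a b) μ := fun a b =>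
      (hBm a b).mono hIA.1
    obtain ⟨y, hy⟩ := hMCL Ω μ S S' C p q R₀ m
      (fun x => conj (ψ x) • ((B x).conjTranspose * U x)) ρ hT hE hQ hq hR hmR
      (by
        intro a b
        have h1 : AEStronglyMeasurable (fun x => conj (ψ x)) μ :=
          Complex.continuous_conj.comp_aestronglyMeasurable hψ.1.aestronglyMeasurable
        have h2 : AEStronglyMeasurable (fun x => ∑ c, conj (B x c a) * U x c b) μ :=
          Finset.aestronglyMeasurable_fun_sum _ fun c _ =>
            (Complex.continuous_conj.comp_aestronglyMeasurable (hBm' c a)).mul (hUm c b)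
        refine (h1.mul h2).congr (Eventually.of_forall fun x => ?_)
        simp [Matrix.mul_apply])
      ⟨m * L, by
        filter_upwards [hψ.2, hL, hUb] with x h1 h2 h3 a b
        simp only [Matrix.smul_apply, smul_eq_mul, norm_mul, RCLike.norm_conj, h1, one_mul,
          Matrix.mul_apply, Matrix.conjTranspose_apply]
        refine (norm_sum_le _ _).trans ?_
        have h4 : ∀ c ∈ (univ : Finset (Fin m)), ‖star (B x c a) * U x c b‖ ≤ L := by
          intro c _
          rw [norm_mul, norm_star]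
          have h5 := h2 c a
          have h6 := h3 c b
          nlinarith [norm_nonneg (B x c a), norm_nonneg (U x c b)]
        refine (sum_le_sum h4).trans ?_
        simp⟩ hF.meas hF.unit hIr
      (by
        filter_upwards [hBT, hUT', hψ.mul_conj, hc1, ae_comp hS.mp hF.unit]
          with x h1 h2 h3 h4 h5
        have h6 : (ρ (S x)).conjTranspose * ρ (S x) = 1 := star_mul_of h5
        rw [h1, h2, Matrix.conjTranspose_smul, Matrix.conjTranspose_mul,
          Matrix.conjTranspose_mul, Matrix.conjTranspose_conjTranspose, Matrix.smul_mul,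
          smul_smul]
        have h7 : conj (ψ (S^[p] x)) * star (conj (ψ (S^[p] x) * conj (ψ x))) = conj (ψ x) := by
          simp only [RCLike.star_def, map_mul, Complex.conj_conj]
          linear_combination (conj (ψ x)) * h4
        rw [h7, Matrix.mul_smul, Matrix.smul_mul]
        congr 1
        calc ρ x * ((B x).conjTranspose * (ρ (S x)).conjTranspose) *
              (ρ (S x) * U x * (ρ x).conjTranspose)
            = ρ x * ((B x).conjTranspose * ((ρ (S x)).conjTranspose * ρ (S x)) * U x) *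
              (ρ x).conjTranspose := by simp only [Matrix.mul_assoc]
          _ = ρ x * ((B x).conjTranspose * U x) * (ρ x).conjTranspose := by
              rw [h6, Matrix.mul_one])
    -- `U = ψ B'`
    have hUB : ∀ᵐ x ∂μ, U x = ψ x • ((y / l) • B x) := by
      filter_upwards [hy, hBB, hψ.mul_conj] with x h1 h2 h3
      have h4 : B x * (conj (ψ x) • ((B x).conjTranspose * U x)) = y • B x := by
        rw [h1, Matrix.mul_smul, Matrix.mul_one]
      rw [Matrix.mul_smul, ← Matrix.mul_assoc, h2, Matrix.smul_mul, Matrix.one_mul,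
        smul_smul] at h4
      have h5 : (ψ x * l⁻¹) • ((conj (ψ x) * l) • U x) = (ψ x * l⁻¹) • (y • B x) := by rw [h4]
      rw [smul_smul, smul_smul] at h5
      have h6 : ψ x * l⁻¹ * (conj (ψ x) * l) = 1 := by
        have : l⁻¹ * l = 1 := inv_mul_cancel₀ hl0
        linear_combination (ψ x * conj (ψ x)) * this + h3
      rw [h6, one_smul] at h5
      rw [h5, smul_smul]
      congr 1
      rw [div_eq_mul_inv]
      ring
    set B' : Ω → Matrix (Fin m) (Fin m) ℂ := fun x => (y / l) • B x with hB'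
    have hB'm : Amm μ C B' := amm_smul (am_const _) hBm
    have hB'u : ∀ᵐ x ∂μ, B' x ∈ Matrix.unitaryGroup (Fin m) ℂ := by
      filter_upwards [hUB, hUu, hψ.mul_conj] with x h1 h2 h3
      apply unit_of
      have h4 := mul_star_of h2
      rw [h1, Matrix.conjTranspose_smul, Matrix.smul_mul, Matrix.mul_smul, smul_smul] at h4
      have h5 : ψ x * star (ψ x) = 1 := h3
      rw [h5, one_smul] at h4
      exact h4
    -- the product along the orbit
    have hρ1 : ∀ᵐ x ∂μ, ρ x = Un S U p x := by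
      have h0 : ∀ᵐ x ∂μ, (fun a => θ x (ev (S x) a)) = act (U x) (ev x) := hgU
      filter_upwards [Un_act hS h0 p, hcomp, hgram] with x h1 h2 h3
      exact act_inj h3 (h2.symm.trans h1)
    have hρ2 := Un_smul (f := ψ) hS hUB p
    have hprod : AM μ C (fun x => ∏ j ∈ range p, ψ (S^[j] x)) := by
      have h1 : Amm μ C (fun x => ρ x * (Un S B' p x).conjTranspose) :=
        amm_mul hF.meas (amm_star (amm_Un hIA hB'm p))
      refine am_congr (h1 a0 a0) ?_
      filter_upwards [hρ1, hρ2, unit_Un hS hB'u p] with x h2 h3 h4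
      rw [h2, h3, Matrix.smul_mul, mul_star_of h4]
      simp
    have hincS : Inc μ C S ψ := hQ.s ψ hψ hinc
    have hprod2 : AM μ C (fun x => ∏ j ∈ range p, (ψ (S^[j] x) * conj (ψ x))) :=
      Pool.Agent.Helper13.TWR.am_prod _ fun j _ =>
        Pool.Agent.Helper13.TWR.inc_iterate hIA hS hψ hincS j
    have hψp : AM μ C (fun x => ψ x ^ p) := by
      refine am_congr (am_conj (am_mul (am_conj hprod) hprod2)) ?_
      have hall : ∀ᵐ x ∂μ, ∀ j, ψ (S^[j] x) * conj (ψ (S^[j] x)) = 1 :=
        ae_all_iff.2 fun j => ae_comp (hS.iterate j).mp hψ.mul_conj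
      filter_upwards [hall] with x hx
      have h1 : (∏ j ∈ range p, ψ (S^[j] x)) * conj (∏ j ∈ range p, ψ (S^[j] x)) = 1 := by
        rw [map_prod, ← prod_mul_distrib]
        exact prod_eq_one fun j _ => hx j
      rw [prod_mul_distrib, prod_const, card_range]
      simp only [map_mul, Complex.conj_conj, map_pow]
      linear_combination (ψ x ^ p) * h1
    have hψC : AM μ C ψ := hQ.c ψ hψ hinc p hp.one_lt.le ((Nat.coprime_primes hp hq).2 hpq) hψp
    have hle : @LE.le (MeasurableSpace Ω) _ C m0 := hIA.1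
    have : IsFiniteMeasure (μ.trim hle) := isFiniteMeasure_trim hle
    have : SigmaFinite (μ.trim hle) := IsFiniteMeasure.toSigmaFinite _
    have h1 : μ[ψ|C] =ᵐ[μ] ψ :=
      condExp_of_aestronglyMeasurable' hIA.1 hψC (Pool.Agent.Helper13.TWR.uf_int hψ)
    obtain ⟨x, h2, h3, h4⟩ := (h1.and (hψ0.and hψ.2)).exists
    rw [h2] at h3
    rw [h3] at h4
    simp at h4
  refine ⟨U, key, hUu, fun a => ?_⟩
  filter_upwards [hgU] with x hx
  exact congrFun hx a

end Pool.Agent.Helper60.TWM

theorem Pool.Agent.Helper40.TWM.st_MWI (hMCL : Pool.Agent.Helper40.TWM.ST_MCL)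
    (hMEN : Pool.Agent.Helper40.TWM.ST_MEN) (hMIR : Pool.Agent.Helper40.TWM.ST_MIR) :
    Pool.Agent.Helper40.TWM.ST_MWI :=
  Pool.Agent.Helper60.TWM.st_MWI hMCL hMEN hMIR
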