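import Pool.Agent.Helper40.TWM.Stmts
import Pool.Agent.Helper98.TW.Basic
import Pool.Agent.Helper13.TWR.POW

/-!
Rows MWI and MAS of the sheet TWM: linear algebra.
-/

set_option linter.unusedSectionVars false

open MeasureTheory Filter Topology Finset
open scoped ComplexConjugate Matrix

namespace Pool.Agent.Helper60.TWM

open Pool.Agent.Helper98.TW
open Pool.Agent.Helper40.TWM

section lin

variable {V : Type} [NormedAddCommGroup V] [InnerProductSpace ℂ V] {m : ℕ}

/-- matrices act on tuples of vectors -/
noncomputable def act (A : Matrix (Fin m) (Fin m) ℂ) (e : Fin m → V) : Fin m → V :=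
  fun a => ∑ b, A a b • e b

theorem act_one (e : Fin m → V) : act 1 e = e := by
  ext a
  simp [act, Matrix.one_apply]

theorem act_mul (A B : Matrix (Fin m) (Fin m) ℂ) (e : Fin m → V) :
    act (A * B) e = act A (act B e) := by
  ext a
  simp only [act, Matrix.mul_apply, sum_smul, smul_sum, mul_smul]
  rw [sum_comm]

theorem act_smul (c : ℂ) (A : Matrix (Fin m) (Fin m) ℂ) (e : Fin m → V) :
    act (c • A) e = c • act A e := by
  ext a
  simp [act, smul_sum, mul_smul]

theorem map_act (f : V →L[ℂ] V) (A : Matrix (Fin m) (Fin m) ℂ) (e : Fin m → V) (a : Fin m) :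
    f (act A e a) = act A (fun b => f (e b)) a := by
  simp [act, map_sum]

/-- the Gram matrix -/
noncomputable def gram (e : Fin m → V) : Matrix (Fin m) (Fin m) ℂ :=
  Matrix.of fun a b => inner ℂ (e b) (e a)

theorem gram_apply (e : Fin m → V) (a b : Fin m) : gram e a b = inner ℂ (e b) (e a) := rfl

theorem gram_act (A : Matrix (Fin m) (Fin m) ℂ) (e : Fin m → V) :
    gram (act A e) = A * gram e * A.conjTranspose := by
  ext a b
  simp only [gram_apply, act, Matrix.mul_apply, sum_inner, inner_sum, inner_smul_left,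
    inner_smul_right, Matrix.conjTranspose_apply, sum_mul, mul_sum]
  rw [sum_comm]
  refine sum_congr rfl fun b' _ => sum_congr rfl fun a' _ => ?_
  simp only [RCLike.star_def]
  ring

theorem inner_iso {f : V →L[ℂ] V} (hf : ∀ v, ‖f v‖ = ‖v‖) (v w : V) :
    (inner ℂ (f v) (f w) : ℂ) = inner ℂ v w :=
  (LinearIsometry.mk f.toLinearMap hf).inner_map_map v w

theorem gram_iso {f : V →L[ℂ] V} (hf : ∀ v, ‖f v‖ = ‖v‖) (e : Fin m → V) :
    gram (fun a => f (e a)) = gram e := by
  ext a b
  simp only [gram_apply, inner_iso hf]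

theorem act_inj {e : Fin m → V} (he : gram e = 1) {A B : Matrix (Fin m) (Fin m) ℂ}
    (h : act A e = act B e) : A = B := by
  have key : ∀ (A : Matrix (Fin m) (Fin m) ℂ) (a b : Fin m),
      (inner ℂ (e b) (act A e a) : ℂ) = A a b := by
    intro A a b
    simp only [act, inner_sum, inner_smul_right]
    rw [sum_eq_single b]
    · have : (inner ℂ (e b) (e b) : ℂ) = 1 := by
        rw [← gram_apply, he]; simp
      rw [this, mul_one]
    · intro c _ hc
      have : (inner ℂ (e b) (e c) : ℂ) = 0 := by
        rw [← gram_apply, he]; simp [hc]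
      rw [this, mul_zero]
    · intro hb
      exact absurd (mem_univ b) hb
  ext a b
  rw [← key A a b, ← key B a b, h]

/-- the sum of the rank one operators -/
noncomputable def pr (e : Fin m → V) : V →L[ℂ] V :=
  ∑ a, InnerProductSpace.rankOne ℂ (e a) (e a)

theorem pr_apply (e : Fin m → V) (v : V) : pr e v = ∑ a, (inner ℂ (e a) v : ℂ) • e a := by
  simp [pr]

theorem pr_self {e : Fin m → V} (he : gram e = 1) (b : Fin m) : pr e (e b) = e b := by
  rw [pr_apply, sum_eq_single b]
  · rw [← gram_apply, he]; simp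
  · intro c _ hc
    have : (inner ℂ (e c) (e b) : ℂ) = 0 := by
      rw [← gram_apply, he]; simp [Ne.symm hc]
    rw [this, zero_smul]
  · intro hb
    exact absurd (mem_univ b) hb

theorem pr_act {A : Matrix (Fin m) (Fin m) ℂ} (hA : A ∈ Matrix.unitaryGroup (Fin m) ℂ)
    (e : Fin m → V) : pr (act A e) = pr e := by
  ext v
  rw [pr_apply, pr_apply]
  have h1 : ∀ b c, ∑ a, conj (A a b) * A a c = if b = c then 1 else 0 := by
    intro b c
    have h2 : A.conjTranspose * A = 1 := by
      have := (Matrix.mem_unitaryGroup_iff').1 hA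
      simpa [Matrix.star_eq_conjTranspose] using this
    have h3 := congrFun (congrFun h2 b) c
    simpa [Matrix.mul_apply, Matrix.one_apply] using h3
  simp only [act, sum_inner, inner_smul_left, smul_sum, smul_smul, sum_mul, sum_smul]
  calc ∑ a, ∑ c, ∑ b, (conj (A a b) * (inner ℂ (e b) v : ℂ) * A a c) • e c
      = ∑ c, ∑ b, (∑ a, conj (A a b) * A a c) • (inner ℂ (e b) v : ℂ) • e c := by
        rw [sum_comm]
        refine sum_congr rfl fun c _ => ?_
        rw [sum_comm]
        refine sum_congr rfl fun b _ => ?_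
        rw [sum_smul]
        refine sum_congr rfl fun a _ => ?_
        rw [smul_smul]
        congr 1
        ring
    _ = ∑ c, (inner ℂ (e c) v : ℂ) • e c := by
        refine sum_congr rfl fun c _ => ?_
        rw [sum_eq_single c]
        · rw [h1]; simp
        · intro b _ hb
          rw [h1]; simp [hb]
        · intro hc
          exact absurd (mem_univ c) hc

theorem pr_map [CompleteSpace V] (f : V →L[ℂ] V) (e : Fin m → V) :
    f * pr e * star f = pr (fun a => f (e a)) := by
  ext v
  simp only [mul_apply_eq_comp, pr_apply, map_sum, map_smul]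
  refine sum_congr rfl fun a _ => ?_
  rw [ContinuousLinearMap.star_eq_adjoint, ContinuousLinearMap.adjoint_inner_right]

theorem pr_norm {e : Fin m → V} {K : ℝ} (h : ∑ a, ‖e a‖ ^ 2 = K) : ‖pr e‖ ≤ K := by
  rw [← h, pr]
  refine (norm_sum_le _ _).trans (sum_le_sum fun a _ => ?_)
  rw [InnerProductSpace.norm_rankOne, sq]

end lin

section iso

variable {Ω : Type} [MeasurableSpace Ω] {μ : Measure Ω} {V : Type} [NormedAddCommGroup V]
  [InnerProductSpace ℂ V] {S : Ω → Ω} {θ : Ω → V →L[ℂ] V}

theorem tp_iso (hθ : Th μ θ) (n : ℕ) (x : Ω) (v : V) : ‖tp S θ n x v‖ = ‖v‖ := by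
  induction n generalizing x v with
  | zero => simp [tp]
  | succ n ih =>
    show ‖θ x (tp S θ n (S x) v)‖ = ‖v‖
    rw [hθ.iso, ih]

theorem tp_one (x : Ω) : tp S θ 1 x = θ x := by
  simp [tp]

theorem tp_succ' (n : ℕ) (x : Ω) (v : V) :
    tp S θ (n + 1) x v = tp S θ n x (θ (S^[n] x) v) := by
  induction n generalizing x with
  | zero => simp [tp]
  | succ n ih =>
    have h1 : tp S θ (n + 1 + 1) x v = θ x (tp S θ (n + 1) (S x) v) := rfl
    rw [h1, ih]
    show _ = θ x (tp S θ n (S x) (θ (S^[n + 1] x) v))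
    rw [Function.iterate_succ_apply]

end iso

end Pool.Agent.Helper60.TWM
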